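import Pool.Agent.U195.IH.Bern

/-!
# Bernstein sets of indiscernibles in the complex numbers

`Cl F S` is the closure of the set `S` of complex numbers under solving the equations
`F k y z = 0` for `z`, where `y` is a tuple of elements of the closure and `F k y` is not
identically zero; the `F k` are entire functions of finite order in `z`, for example all exponential
polynomials `P(y, e^y, z, e^z)` with integer coefficients.

The starting results compare the closures `Cl(A ∪ {x₁, …, x_n})` for almost all tuples `x`, and for all
but countably many `x₁`, all but countably many `x₂`, …. So far one could not exclude that the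
exceptional tuples are met by every set `H` of complex numbers which is large in the sense of measure or
category. Here we show that there is a Bernstein set `H` without exceptional tuples: `H` and its complement
meet every uncountable Borel set in `2^ℵ₀` points (so `H` has full outer measure for all atomless
measures and is nowhere meagre), and any two tuples of `n` distinct elements of `H` have isomorphic
closures, by an isomorphism with `x_i ↦ y_i` which is the identity on the closure of `A` and respects
countably many given relations `R j`; their type is the generic one. In addition `H` can be chosen such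
that it meets all sets of a given family `𝒞` of at most `2^ℵ₀` ARBITRARY sets of cardinality `2^ℵ₀`, and
such that the same is true for countably many entire maps `φ j` of the tuples.

Proof. The points of `H` are chosen by transfinite recursion of length `2^ℵ₀`; the forbidden points for a
given set of fewer than `2^ℵ₀` points form a set of cardinality less than `2^ℵ₀`. This uses the iterated
quantifier for uncountably many, as in the starting result `MagidorMalitz`.
-/

set_option autoImplicit false

namespace Pool.Agent.Results.MP_a12702_lc.BernsteinSets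

open Set MeasureTheory Function Cardinal
open Pool.Agent.TH735.QM Pool.Agent.TH735.FO Pool.Agent.TH735.BF Pool.Agent.N587.IC
open scoped Cardinal

theorem result (m : ℕ → ℕ) (F : (k : ℕ) → (Fin (m k) → ℂ) → ℂ → ℂ)
    (hF : ∀ k, AnalyticOnNhd ℂ (fun p : (Fin (m k) → ℂ) × ℂ => F k p.1 p.2) univ)
    (hord : ∀ k, FiniteOrder (F k))
    (ν : ℕ → ℕ) (R : (j : ℕ) → Set (Fin (ν j) → ℂ)) (hR : ∀ j, CQ (ν j) (R j))
    (hRm : ∀ j, MeasurableSet (R j)) (A : Set ℂ) (hA : A.Countable)
    (a b : ℕ → ℕ) (φ : (j : ℕ) → (Fin (a j) → ℂ) → (Fin (b j) → ℂ))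
    (hφ : ∀ j, AnalyticOnNhd ℂ (φ j) univ)
    (𝒞 : Set (Set ℂ)) (h𝒞 : #𝒞 ≤ 𝔠) (hc : ∀ C ∈ 𝒞, #C = 𝔠) :
    ∃ H : Set ℂ,
      -- `H` and its complement meet all sets in `𝒞` and all uncountable Borel sets in `2^ℵ₀` points
      (∀ C : Set ℂ, C ∈ 𝒞 ∨ (MeasurableSet C ∧ ¬ C.Countable) →
        #(H ∩ C : Set ℂ) = 𝔠 ∧ #(C \ H : Set ℂ) = 𝔠) ∧
      -- all tuples of distinct elements of `H` have isomorphic closures, and are generic
      (∀ (n : ℕ) (x : Fin n → ℂ), Injective x → (∀ i, x i ∈ H) →
        (∀ y : Fin n → ℂ, Injective y → (∀ i, y i ∈ H) → ∃ σ, IsIso F R A x y σ) ∧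
        ∀ (μ : Fin n → Measure ℂ) [∀ i, SigmaFinite (μ i)], (∀ i z, μ i {z} = 0) →
          ∀ᵐ y ∂(Measure.pi μ), ∃ σ, IsIso F R A x y σ) ∧
      -- the same for the entire maps `φ j`
      ∀ (j : ℕ) (x : Fin (a j) → ℂ), Injective x → (∀ i, x i ∈ H) →
        (∀ y : Fin (a j) → ℂ, Injective y → (∀ i, y i ∈ H) →
          ∃ σ, IsIso F R A (φ j x) (φ j y) σ) ∧
        ∀ (μ : Fin (a j) → Measure ℂ) [∀ i, SigmaFinite (μ i)], (∀ i z, μ i {z} = 0) →
          ∀ᵐ y ∂(Measure.pi μ), ∃ σ, IsIso F R A (φ j x) (φ j y) σ :=
  Pool.Agent.U195.IH.bernstein hF hord hR hRm hA φ hφ 𝒞 h𝒞 hc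

end Pool.Agent.Results.MP_a12702_lc.BernsteinSets
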