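import Pool.Agent.Results.MP_a12702_lc.MagidorMalitz
import Pool.Agent.U195.CI.Ex

/-!
# Which quantifiers over parameter spaces preserve quasiminimality?

The starting results `FiniteOrderGuards`, `OneEquationQuantifiers`, `GenericQuantifiers` and
`MagidorMalitz` show that large families of sets, which contain the zero sets of entire functions and
are closed under countable Boolean combinations, preimages under entire maps and many quantifiers, have
countable or cocountable traces on all analytic curves (`CQ`); so the sets of complex numbers in these
families are countable or cocountable. The only quantifiers over an arbitrary parameter space `Y` in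
these results are integrals with respect to a measure.

Here we determine ALL `σ`-ideals `I` on a standard Borel space `Y` (for example a space of functions)
whose quantifiers preserve the sets with countable or cocountable traces. The following are equivalent
for every `σ`-ideal `I`, without any hypothesis on its definability or on the results of the
quantifiers:

* `FewFibres`: every Borel function `Y → ℂ` has at most countably many fibres outside of `I`;
* `ConstantOnCurves`: if `f (s, y)` is a Borel function with values in a countably separated space and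
  all sets `{s | f (s, y) ∈ E}` have countable or cocountable traces, for all `y` outside of a Borel set
  in `I`, then on every analytic curve `γ` the functions `f (γ t, ·)` are EQUAL MODULO `I` for all `t`
  outside of a countable set;
* `InvariantQuantifiers`: for these functions `f` and every property `Φ` of functions on `Y` which is
  invariant modulo `I` the set `{s | Φ (f (s, ·))}` has countable or cocountable traces;
* `UniqueQuantifier`: the quantifier 'for `I`-positively many `y`' gives countable or cocountable sets
  `{t | {y | (t, y) ∈ X} ∉ I}` for all Borel sets `X` such that every `y` belongs to at most one `t`.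

All `σ`-ideals with the countable chain condition have few fibres. The ideals of null sets (of s-finite
measures) and of meagre sets (Polish spaces) are examples; the ideal of countable subsets of `ℂ` is not.
Thus the least family which is closed under the operations of the starting results, all invariant
quantifiers of all these ideals (as long as their results are Borel sets), the Baire category
quantifiers over all Polish spaces (conditions which hold for the generic `y` only), and the measure
quantifiers for conditions on almost all `y`, consists of Borel sets with countable or cocountable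
traces.

Proof. By the theorem of Lusin and Novikov (library) a Borel set `Z ⊆ ℂ × Y` with countable horizontal
sections is contained in the union of the graphs of countably many Borel functions `Y → ℂ`, so all but
countably many vertical sections of `Z` are in `I`. This is applied to the set of the points `(t, y)` at
which `f (γ t, y)` is not the generic value, which is a Borel set by Fubini's theorem for an atomless
measure. The results of the category quantifiers are Borel sets by the theorem of Montgomery and Novikov
(library).
-/

set_option autoImplicit false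

namespace Pool.Agent.Results.MP_a12702_lc.IdealQuantifiers

open Set Function MeasureTheory Pool.Agent.TH735.QM Pool.Agent.U195.CI
open scoped ENNReal

/-- Closure conditions on families `𝒟 m` of subsets of `ℂ^m`: those of the starting results
`GenericQuantifiers` and `MagidorMalitz` and three further ones. -/
structure ClosedI (𝒟 : (m : ℕ) → Set (Set (Fin m → ℂ))) : Prop extends
    MagidorMalitz.ClosedMM 𝒟 where
  /-- the quantifiers which are invariant modulo a `σ`-ideal with few fibres: the set of all `s` such
  that the function `f (s, ·)` on the standard Borel space `Y` has the property `Φ`, if this is a Borel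
  set; `f` is a Borel function with all sets `{s | f (s, y) ∈ E}` in the family, for all `y` outside of
  a Borel set `N` in `I`, and `Φ` is invariant modulo `I` -/
  ideal : ∀ (Y W : Type) [MeasurableSpace Y] [StandardBorelSpace Y] [MeasurableSpace W]
    [MeasurableSpace.CountablySeparated W] (I : Set (Set Y)), IsSigmaIdeal I → FewFibres I →
    ∀ (m : ℕ) (f : (Fin m → ℂ) → Y → W), Measurable (fun p : (Fin m → ℂ) × Y => f p.1 p.2) →
    ∀ N ∈ I, MeasurableSet N →
    (∀ y ∉ N, ∀ E : Set W, MeasurableSet E → {s | f s y ∈ E} ∈ 𝒟 m) →
    ∀ Φ : (Y → W) → Prop,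
    (∀ g h : Y → W, Measurable g → Measurable h → {y | g y ≠ h y} ∈ I → (Φ g ↔ Φ h)) →
    MeasurableSet {s | Φ (f s)} → {s | Φ (f s)} ∈ 𝒟 m
  /-- Baire category quantifiers: for a Borel set `X` whose sections `{s | (s, y) ∈ X}` are in the
  family for all `y` outside of a meagre set, the set of all `s` with a non-meagre section
  `{y | (s, y) ∈ X}` in the Polish space `Y` -/
  category : ∀ (m : ℕ) (Y : Type) [TopologicalSpace Y] [PolishSpace Y] [MeasurableSpace Y]
    [BorelSpace Y] (X : Set ((Fin m → ℂ) × Y)), MeasurableSet X → ∀ N : Set Y, IsMeagre N →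
    (∀ y ∉ N, {s | (s, y) ∈ X} ∈ 𝒟 m) → {s | ¬ IsMeagre {y | (s, y) ∈ X}} ∈ 𝒟 m
  /-- measure quantifiers over standard Borel spaces for conditions on almost all `y` -/
  almost : ∀ (m : ℕ) (Y : Type) [MeasurableSpace Y] [StandardBorelSpace Y] (μ : Measure Y)
    [SFinite μ] (X : Set ((Fin m → ℂ) × Y)), MeasurableSet X →
    (∀ᵐ y ∂μ, {s | (s, y) ∈ X} ∈ 𝒟 m) → ∀ r : ℝ≥0∞, {s | r < μ {y | (s, y) ∈ X}} ∈ 𝒟 m

theorem closed_BC : ClosedI (fun m => {X | CQ m X ∧ MeasurableSet X}) :=
  { MagidorMalitz.closed_BC with
    ideal := fun _ W _ _ _ _ _ hI hfew m f hf N hN hNm h Φ hΦ hm =>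
      ⟨invariant_of_constant (constantOnCurves hI hfew) W m f hf N hN hNm
        (fun y hy E hE => (h y hy E hE).1) Φ hΦ, hm⟩
    category := fun _ _ _ _ _ _ _ hX _ hN h => BC.category hX hN fun y hy => (h y hy).1
    almost := fun _ _ _ _ μ _ _ hX h r => BC.measure μ hX (h.mono fun _ hy => hy.1) r }

/-- (1) For a `σ`-ideal on a standard Borel space the four properties are equivalent. (2) The countable
chain condition implies them. (3) Null ideals and meagre ideals satisfy the countable chain condition,
and the countable subsets of `ℂ` form a `σ`-ideal without these properties. (4) The sets in the least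
closed family are Borel sets with countable or cocountable traces on all analytic curves. (5) Every set
of complex numbers in the least closed family is countable or cocountable. (6) One more quantifier,
invariant modulo a `σ`-ideal with few fibres, with a result which need not be a Borel set, gives
countable or cocountable sets of complex numbers. -/
theorem result :
    (∀ (Y : Type) [MeasurableSpace Y] [StandardBorelSpace Y] (I : Set (Set Y)), IsSigmaIdeal I →
      List.TFAE [FewFibres I, ConstantOnCurves I, InvariantQuantifiers I, UniqueQuantifier I]) ∧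
    (∀ (Y : Type) [MeasurableSpace Y] (I : Set (Set Y)), IsSigmaIdeal I → CountableChains I →
      FewFibres I) ∧
    ((∀ (Y : Type) [MeasurableSpace Y] (μ : Measure Y) [SFinite μ],
        IsSigmaIdeal {A : Set Y | μ A = 0} ∧ CountableChains {A : Set Y | μ A = 0}) ∧
      (∀ (Y : Type) [TopologicalSpace Y] [PolishSpace Y] [MeasurableSpace Y] [BorelSpace Y],
        IsSigmaIdeal {A : Set Y | IsMeagre A} ∧ CountableChains {A : Set Y | IsMeagre A}) ∧
      (IsSigmaIdeal {A : Set ℂ | A.Countable} ∧ ¬ FewFibres {A : Set ℂ | A.Countable})) ∧
    (∀ (m : ℕ) (X : Set (Fin m → ℂ)),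
      (∀ 𝒟 : (m : ℕ) → Set (Set (Fin m → ℂ)), ClosedI 𝒟 → X ∈ 𝒟 m) →
      MeasurableSet X ∧ ∀ U : Set ℂ, IsOpen U → IsPreconnected U →
        ∀ γ : ℂ → (Fin m → ℂ), AnalyticOnNhd ℂ γ U →
          {t | t ∈ U ∧ γ t ∈ X}.Countable ∨ {t | t ∈ U ∧ γ t ∉ X}.Countable) ∧
    (∀ X : Set ℂ,
      (∀ 𝒟 : (m : ℕ) → Set (Set (Fin m → ℂ)), ClosedI 𝒟 → {v : Fin 1 → ℂ | v 0 ∈ X} ∈ 𝒟 1) →
      X.Countable ∨ Xᶜ.Countable) ∧
    (∀ (Y W : Type) [MeasurableSpace Y] [StandardBorelSpace Y] [MeasurableSpace W]
      [MeasurableSpace.CountablySeparated W] (I : Set (Set Y)), IsSigmaIdeal I → FewFibres I →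
      ∀ f : (Fin 1 → ℂ) → Y → W, Measurable (fun p : (Fin 1 → ℂ) × Y => f p.1 p.2) →
      ∀ N ∈ I, MeasurableSet N →
      (∀ y ∉ N, ∀ E : Set W, MeasurableSet E →
        ∀ 𝒟 : (m : ℕ) → Set (Set (Fin m → ℂ)), ClosedI 𝒟 → {s | f s y ∈ E} ∈ 𝒟 1) →
      ∀ Φ : (Y → W) → Prop,
      (∀ g h : Y → W, Measurable g → Measurable h → {y | g y ≠ h y} ∈ I → (Φ g ↔ Φ h)) →
      {z : ℂ | Φ (f fun _ => z)}.Countable ∨ {z : ℂ | Φ (f fun _ => z)}ᶜ.Countable) := by
  refine ⟨?_, ?_, ⟨?_, ?_, ?_, ?_⟩, ?_, ?_, ?_⟩
  · intro Y _ _ I hI
    exact characterization hI
  · intro Y _ I hI hc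
    exact hc.fewFibres hI
  · intro Y _ μ _
    exact ⟨null_sigma μ, null_ccc μ⟩
  · intro Y _ _ _ _
    exact ⟨meagre_sigma, meagre_ccc⟩
  · exact ⟨Set.countable_empty, fun _ _ h hB => hB.mono h, fun _ hA => countable_iUnion hA⟩
  · exact not_few_countable
  · intro m X hX
    have h1 : CQ m X ∧ MeasurableSet X := hX _ closed_BC
    exact ⟨h1.2, h1.1⟩
  · intro X hX
    have h1 : CQ 1 {v : Fin 1 → ℂ | v 0 ∈ X} ∧ MeasurableSet {v : Fin 1 → ℂ | v 0 ∈ X} :=
      hX _ closed_BC
    exact h1.1.qm
  · intro Y W _ _ _ _ I hI hfew f hf N hN hNm h Φ hΦ
    have h1 := invariant_of_constant (constantOnCurves hI hfew) W 1 f hf N hN hNm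
      (fun y hy E hE => (h y hy E hE _ closed_BC).1) Φ hΦ
    exact h1.qm

end Pool.Agent.Results.MP_a12702_lc.IdealQuantifiers
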