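import Pool.Agent.U195.IH.Sub

/-!
# Indiscernible subsets of uncountable sets of complex numbers

`Cl F S` is the closure of the set `S` of complex numbers under solving the equations
`F k y z = 0` for `z`, where `y` is a tuple of elements of the closure and `F k y` is not
identically zero; the `F k` are entire functions of finite order in `z`. For example, if the `F k` are
all exponential polynomials `P(y, e^y, z, e^z)` with integer coefficients, then `Cl F S` is an
algebraically closed exponential subfield of `ℂ` which contains all logarithms of its nonzero elements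
and all solutions of nontrivial exponential polynomial equations `P(z, e^z) = 0` over it.

The starting result `IsomorphicTuples` says that the closures of `A ∪ {x₁, …, x_n}` are isomorphic for
almost all tuples, for products of atomless measures, and for all but countably many `x₁`, all but
countably many `x₂`, …. Nothing is said there about a given set of parameters which has measure zero
for all atomless measures, for example a Luzin set, a Hamel basis of this kind, or a set of cardinality
`ℵ₁`.

Here `P ⊆ ℂ` is an ARBITRARY uncountable set. We find `H ⊆ P` of the same cardinality as `P` such that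
any two injective `n`-tuples `x`, `y` of elements of `H` have isomorphic closures: there is an
isomorphism `Cl(A ∪ {x₁, …, x_n}) → Cl(A ∪ {y₁, …, y_n})` with `x_i ↦ y_i` which is the identity on the
closure of `A` and respects countably many arbitrary Borel relations `R j` given in advance whose
traces on analytic curves are countable or cocountable (`CQ`). Here `n` is arbitrary and the same `H`
works for all `n`. So `H` is a set of indiscernibles of full cardinality inside `P`, and the types of its
tuples are the generic ones of `IsomorphicTuples`. The same `H` can be chosen such that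
`Cl(A ∪ φ(x))` and `Cl(A ∪ φ(y))` are isomorphic for countably many entire maps `φ` given in advance.

Proof. The isomorphism classes of the generic tuples are Borel sets with countable or cocountable
traces on the analytic curves (library), so the quantifier for uncountably many can be iterated in
them in all orders; Zorn's lemma and a count of the configurations give `H`, without any hypothesis
on `P` (this argument is adapted from the starting result `MagidorMalitz`, where `P = ℂ`).
-/

set_option autoImplicit false

namespace Pool.Agent.Results.MP_a12702_lc.IndiscernibleSubsets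

open Set MeasureTheory Function Cardinal
open Pool.Agent.TH735.QM Pool.Agent.TH735.FO Pool.Agent.TH735.BF Pool.Agent.N587.IC
open scoped Cardinal

theorem result (m : ℕ → ℕ) (F : (k : ℕ) → (Fin (m k) → ℂ) → ℂ → ℂ)
    (hF : ∀ k, AnalyticOnNhd ℂ (fun p : (Fin (m k) → ℂ) × ℂ => F k p.1 p.2) univ)
    (hord : ∀ k, FiniteOrder (F k))
    (ν : ℕ → ℕ) (R : (j : ℕ) → Set (Fin (ν j) → ℂ)) (hR : ∀ j, CQ (ν j) (R j))
    (hRm : ∀ j, MeasurableSet (R j)) (A : Set ℂ) (hA : A.Countable)
    (a b : ℕ → ℕ) (φ : (j : ℕ) → (Fin (a j) → ℂ) → (Fin (b j) → ℂ))
    (hφ : ∀ j, AnalyticOnNhd ℂ (φ j) univ) (P : Set ℂ) (hP : ¬ P.Countable) :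
    ∃ H ⊆ P, #H = #P ∧
      -- all tuples of distinct elements of `H` have isomorphic closures, and are generic
      (∀ (n : ℕ) (x : Fin n → ℂ), Injective x → (∀ i, x i ∈ H) →
        (∀ y : Fin n → ℂ, Injective y → (∀ i, y i ∈ H) → ∃ σ, IsIso F R A x y σ) ∧
        ∀ (μ : Fin n → Measure ℂ) [∀ i, SigmaFinite (μ i)], (∀ i z, μ i {z} = 0) →
          ∀ᵐ y ∂(Measure.pi μ), ∃ σ, IsIso F R A x y σ) ∧
      -- the same for the entire maps `φ j`
      ∀ (j : ℕ) (x : Fin (a j) → ℂ), Injective x → (∀ i, x i ∈ H) →
        (∀ y : Fin (a j) → ℂ, Injective y → (∀ i, y i ∈ H) →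
          ∃ σ, IsIso F R A (φ j x) (φ j y) σ) ∧
        ∀ (μ : Fin (a j) → Measure ℂ) [∀ i, SigmaFinite (μ i)], (∀ i z, μ i {z} = 0) →
          ∀ᵐ y ∂(Measure.pi μ), ∃ σ, IsIso F R A (φ j x) (φ j y) σ :=
  Pool.Agent.U195.IH.indiscernible_subset hF hord hR hRm hA φ hφ hP

end Pool.Agent.Results.MP_a12702_lc.IndiscernibleSubsets
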