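import Pool.Agent.U195.IS.Ind

/-!
# Isomorphic closures of generic infinite sequences of complex numbers

`Cl F S` is the closure of the set `S` of complex numbers under solving the equations
`F k y z = 0` for `z`, where `y` is a tuple of elements of the closure and `F k y` is not
identically zero; the `F k` are entire functions of finite order in `z`. For example, if the `F k` are
all exponential polynomials `P(y, e^y, z, e^z)` with integer coefficients, then `Cl F S` is an
algebraically closed exponential subfield of `ℂ` which contains all logarithms of its nonzero elements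
and all solutions of nontrivial exponential polynomial equations `P(z, e^z) = 0` over it.

The starting results `IsomorphicClosures` and `IsomorphicTuples` compare the closures of `A ∪ {x}` for
finite tuples `x`. Here we treat INFINITE SEQUENCES `x = (x₀, x₁, …)`: an isomorphism (`IsIsoN`) from the
closure of `A ∪ {x₀, x₁, …}` to the closure of `A ∪ {y₀, y₁, …}` maps `x_i` to `y_i`, is the identity on
the closure of `A` and respects countably many arbitrary relations `R j` given in advance whose traces
on analytic curves are countable or cocountable (`CQ`).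

1. Along every entire curve in `ℂ^ℕ` all closures are isomorphic, outside of a countable set.
2. The set of all sequences with a closure isomorphic to that of a given sequence is a Borel set in
   `ℂ^ℕ`, with countable or cocountable traces on all entire curves.
3. For every Polish complex topological vector space `E` (for example `ℂ^ℕ`, or the space of all
   entire functions) and all holomorphic functions `φ₀, φ₁, …` on `E` the closures of
   `A ∪ {φ₀(y), φ₁(y), …}` are isomorphic to one of them, for comeagre many `y ∈ E`.
4. The same holds for almost all `y`, for every Borel probability measure on `E` whose product with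
   itself is invariant under rotations (`RotationInvariant`).
5. Centered Gaussian measures on separable complex Banach spaces are examples, and infinite products
   of such measures.
6. Generic sequences are indiscernible: for every injection `π : ℕ → ℕ` and for comeagre many `y ∈ ℂ^ℕ`,
   and for almost all `y` for the powers of Gaussian (rotation invariant) measures, the map
   `y_i ↦ y_{π(i)}` extends to an isomorphism of the closures. So the closure generated by a generic
   sequence is isomorphic to the closures generated by its subsequences, and all permutations of a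
   generic sequence extend to automorphisms.

Proof. Solving the equations `z = γ_i(t)` and adding the relations `F k y z = 0`, `F k y ≠ 0` and the
graphs of the `γ_i` reduces (1) to one parameter `t`. The curve
`θ ↦ (cos θ) x + (sin θ) y` and the theorems of Fubini and of Kuratowski and Ulam give (3) and (4); the
relation of isomorphism is analytic, so it is universally measurable and has the property of Baire
(library).
-/

set_option autoImplicit false

namespace Pool.Agent.Results.MP_a12702_lc.IsomorphicSequences

open Set Filter MeasureTheory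
open Pool.Agent.TH735.QM Pool.Agent.TH735.FO Pool.Agent.TH735.BF Pool.Agent.U195.IS

theorem result (m : ℕ → ℕ) (F : (k : ℕ) → (Fin (m k) → ℂ) → ℂ → ℂ)
    (hF : ∀ k, AnalyticOnNhd ℂ (fun p : (Fin (m k) → ℂ) × ℂ => F k p.1 p.2) univ)
    (hord : ∀ k, FiniteOrder (F k))
    (ν : ℕ → ℕ) (R : (j : ℕ) → Set (Fin (ν j) → ℂ)) (hR : ∀ j, CQ (ν j) (R j))
    (hRm : ∀ j, MeasurableSet (R j)) (A : Set ℂ) (hA : A.Countable) :
    -- (1) entire curves in `ℂ^ℕ`
    (∀ γ : ℕ → ℂ → ℂ, (∀ i, AnalyticOnNhd ℂ (γ i) univ) →
      ∃ B : Set ℂ, B.Countable ∧ ∀ t t', t ∉ B → t' ∉ B →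
        ∃ σ, IsIsoN F R A (fun i => γ i t) (fun i => γ i t') σ) ∧
    -- (2) the isomorphism classes
    (∀ x : ℕ → ℂ, MeasurableSet {y : ℕ → ℂ | ∃ σ, IsIsoN F R A x y σ} ∧
      ∀ γ : ℕ → ℂ → ℂ, (∀ i, AnalyticOnNhd ℂ (γ i) univ) →
        {t : ℂ | ∃ σ, IsIsoN F R A x (fun i => γ i t) σ}.Countable ∨
        {t : ℂ | ∃ σ, IsIsoN F R A x (fun i => γ i t) σ}ᶜ.Countable) ∧
    -- (3) comeagre many points of a Polish space of sequences, functions, …
    (∀ (E : Type) [AddCommGroup E] [Module ℂ E] [TopologicalSpace E] [IsTopologicalAddGroup E]
      [ContinuousSMul ℂ E] [PolishSpace E] (φ : ℕ → E → ℂ), (∀ i, Hol (φ i)) →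
      ∃ x₀ : E, ∀ᶠ y in residual E, ∃ σ, IsIsoN F R A (fun i => φ i x₀) (fun i => φ i y) σ) ∧
    -- (4) almost all points
    (∀ (E : Type) [AddCommGroup E] [Module ℂ E] [TopologicalSpace E] [IsTopologicalAddGroup E]
      [ContinuousSMul ℂ E] [PolishSpace E] [MeasurableSpace E] [BorelSpace E]
      (φ : ℕ → E → ℂ), (∀ i, Hol (φ i)) → ∀ (μ : Measure E) [IsProbabilityMeasure μ],
      RotationInvariant μ →
      ∃ x₀ : E, ∀ᵐ y ∂μ, ∃ σ, IsIsoN F R A (fun i => φ i x₀) (fun i => φ i y) σ) ∧
    -- (5) examples of measures
    ((∀ (E : Type) [NormedAddCommGroup E] [NormedSpace ℂ E] [CompleteSpace E]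
        [SecondCountableTopology E] [MeasurableSpace E] [BorelSpace E] (μ : Measure E)
        [ProbabilityTheory.IsGaussian μ], ∫ x, x ∂μ = 0 → RotationInvariant μ) ∧
      ∀ (E : Type) [AddCommGroup E] [Module ℂ E] [TopologicalSpace E] [IsTopologicalAddGroup E]
        [ContinuousSMul ℂ E] [PolishSpace E] [MeasurableSpace E] [BorelSpace E]
        (μ : ℕ → Measure E) [∀ i, IsProbabilityMeasure (μ i)], (∀ i, RotationInvariant (μ i)) →
        RotationInvariant (Measure.infinitePi μ)) ∧
    -- (6) indiscernibility
    (∀ π : ℕ → ℕ, Function.Injective π →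
      (∀ᶠ y in residual (ℕ → ℂ), ∃ σ, IsIsoN F R A y (y ∘ π) σ) ∧
      ∀ (μ : Measure ℂ) [IsProbabilityMeasure μ], RotationInvariant μ →
        ∀ᵐ y ∂(Measure.infinitePi fun _ : ℕ => μ), ∃ σ, IsIsoN F R A y (y ∘ π) σ) := by
  refine ⟨?_, ?_, ?_, ?_, ⟨?_, ?_⟩, ?_⟩
  · intro γ hγ
    exact curve_iso hF hord hR hA hγ
  · intro x
    exact ⟨class_measN hF hRm hA x, fun γ hγ => class_trace hF hord hR hA hγ x⟩
  · intro E _ _ _ _ _ _ φ hφ
    exact generic_category hF hord hR hRm hA hφ
  · intro E _ _ _ _ _ _ _ _ φ hφ μ _ hμ
    exact generic_measure hF hord hR hRm hA hφ μ hμ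
  · intro E _ _ _ _ _ _ μ _ h0
    exact gauss_rot μ h0
  · intro E _ _ _ _ _ _ _ _ μ _ hμ
    exact rot_infinitePi μ (fun θ => measurable_rot θ) hμ
  · intro π hπ
    exact ⟨indiscernible_category hF hord hR hRm hA hπ, fun μ _ hμ =>
      indiscernible_measure hF hord hR hRm hA μ hμ hπ⟩

end Pool.Agent.Results.MP_a12702_lc.IsomorphicSequences
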